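import Mathlib
import Pool.Agent.H22.BH.Main2

/-! Second homology of relatively free quotients of one-relator groups: the question is answered
positively, with both sides determined, for every variety that contains all extensions of an
elementary abelian `p`-group by a cyclic group for some prime `p`, and for every variety whose free
group of rank `q` is virtually soluble. -/

namespace Pool.Agent.Results.MP_2b5620_al.LargeOrVirtSoluble

/-- the verbal subgroup `V(G)` of the variety defined by the laws `W`: the normal closure of all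
values in `G` of the words in `W` (the set of values is closed under conjugation, so this is the
subgroup generated by the values) -/
def Verbal (W : Set (FreeGroup ℕ)) (G : Type) [Group G] : Subgroup G :=
  Subgroup.normalClosure {g : G | ∃ w ∈ W, ∃ f : ℕ → G, FreeGroup.lift f w = g}

instance (W : Set (FreeGroup ℕ)) (G : Type) [Group G] : (Verbal W G).Normal :=
  Subgroup.normalClosure_normal

/-- `H₂(G/V(G); ℤ)` is finitely generated -/
def FinGenH2 (W : Set (FreeGroup ℕ)) (G : Type) [Group G] : Prop :=
  Module.Finite ℤ (groupHomology (Rep.trivial ℤ (G ⧸ Verbal W G) ℤ) 2)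

/-- every group `E` that has an abelian normal subgroup `A` of exponent dividing `p` with `E/A`
cyclic satisfies all the laws in `W` -/
def ContainsAbByCyc (p : ℕ) (W : Set (FreeGroup ℕ)) : Prop :=
  ∀ (E : Type) [Group E] (A : Subgroup E), A.Normal → (∀ a ∈ A, ∀ b ∈ A, a * b = b * a) →
    (∀ a ∈ A, a ^ p = 1) → (∃ t : E, ∀ x : E, ∃ n : ℤ, x * t ^ n ∈ A) →
    ∀ w ∈ W, ∀ f : ℕ → E, FreeGroup.lift f w = 1

/-- the group has a soluble subgroup of finite index -/
def VirtuallySoluble (E : Type) [Group E] : Prop :=
  ∃ S : Subgroup E, S.FiniteIndex ∧ Group.IsSolvable S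

open Pool.H22.BH in
/-- Let `q ≥ 3`, let `G = ⟨a₁, …, a_q ∣ r⟩` be a one-relator group, `F` free of rank `q - 1`, and
`V` the variety defined by `W`. Suppose that `V` contains, for some prime `p`, all extensions of an
abelian group of exponent `p` by a cyclic group, or that the `V`-free group of rank `q` is virtually
soluble. Then `H₂(G/V(G))` is finitely generated iff `H₂(F/V(F))` is, and this happens exactly when
`V` is the variety of all groups or there is no such prime `p`. -/
theorem result (q : ℕ) (hq : 3 ≤ q) (r : FreeGroup (Fin q)) (W : Set (FreeGroup ℕ))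
    (h : (∃ p : ℕ, p.Prime ∧ ContainsAbByCyc p W) ∨
      VirtuallySoluble (FreeGroup (Fin q) ⧸ Verbal W (FreeGroup (Fin q)))) :
    (FinGenH2 W (PresentedGroup ({r} : Set (FreeGroup (Fin q)))) ↔
      FinGenH2 W (FreeGroup (Fin (q - 1)))) ∧
    (FinGenH2 W (FreeGroup (Fin (q - 1))) ↔
      ((∀ w ∈ W, w = 1) ∨ ∀ p : ℕ, p.Prime → ¬ ContainsAbByCyc p W)) := by
  by_cases hW : ∀ w ∈ W, w = 1
  · -- the variety of all groups
    have h1 : FinGenH2 W (PresentedGroup ({r} : Set (FreeGroup (Fin q)))) :=
      fin_triv hW (PresentedGroup.mk _) (PresentedGroup.mk_surjective _) {r}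
        (Set.finite_singleton r) (QuotientGroup.ker_mk' _)
    have h2 : FinGenH2 W (FreeGroup (Fin (q - 1))) :=
      fin_triv hW (MonoidHom.id _) Function.surjective_id ∅ Set.finite_empty (by
        rw [Subgroup.normalClosure_empty]
        ext x
        simp)
    exact ⟨iff_of_true h1 h2, iff_of_true h2 (Or.inl hW)⟩
  · have hne : ∃ w ∈ W, w ≠ 1 := by
      by_contra hcon
      apply hW
      intro w hw
      by_contra hw1
      exact hcon ⟨w, hw, hw1⟩
    by_cases hp : ∃ p : ℕ, p.Prime ∧ ContainsAbByCyc p W
    · obtain ⟨p, hpp, hpW⟩ := hp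
      have h1 : ¬ FinGenH2 W (PresentedGroup ({r} : Set (FreeGroup (Fin q)))) :=
        no_fin_one hq r hpp hpW hne
      have h2 : ¬ FinGenH2 W (FreeGroup (Fin (q - 1))) :=
        no_fin_free (by omega) hpp hpW hne
      refine ⟨iff_of_false h1 h2, iff_of_false h2 ?_⟩
      rintro (h3 | h3)
      · exact hW h3
      · exact h3 p hpp hpW
    · have hno : ∀ p : ℕ, p.Prime → ¬ ContainsAbByCyc p W := fun p hpp hpW => hp ⟨p, hpp, hpW⟩
      have hv : VirtuallySoluble (FreeGroup (Fin q) ⧸ Verbal W (FreeGroup (Fin q))) :=
        h.resolve_left hp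
      have h1 : FinGenH2 W (PresentedGroup ({r} : Set (FreeGroup (Fin q)))) :=
        fin_of_virt hno inferInstance hv (PresentedGroup.mk _) (PresentedGroup.mk_surjective _)
      obtain ⟨π, hπ⟩ := free_surj q
      have h2 : FinGenH2 W (FreeGroup (Fin (q - 1))) := fin_of_virt hno inferInstance hv π hπ
      exact ⟨iff_of_true h1 h2, iff_of_true h2 (Or.inr hno)⟩

end Pool.Agent.Results.MP_2b5620_al.LargeOrVirtSoluble
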